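import Pool.Agent.H45.S6B.Zr

/-!
# The U-step in a class at `v = 0`, for a plane of directions which is not visible

`uep0_of`: the conclusion `UePStmt {0}` from the class hypotheses `UhZStmt`.
-/

set_option autoImplicit false

namespace Pool.S6B

open Finset Real
open Pool.Agent.H49.Ent Pool.Agent.H32.Dense Pool.STK Pool.KA Pool.KA.Win Pool.KA.TRC
  Pool.KSAT Pool.K2S Pool.K2S.Rows Pool.K2S.FF Pool.PB Pool.S6K.Wfe Pool.UST Pool.S6U Pool.S6C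

section

variable {J : ℕ} {F : Fam 3 J} {A : F.Ω → Prop} {σ : Fin 3 → Fin 3} {wl wa wb : ℕ}
  {vp : ℕ → ℕ} {kap Hu HN : ℕ} {al nu kN nN : (Fin 3 → ℤ) × (ℕ × F.ζ) → ℝ} {a : ℕ → F.Ω → ℝ}
  {s t : F.Ω → ℝ} {B C : ℝ}

/-- The frames are functions of the line and the window. -/
theorem UFi.det0 (h : UFi F A σ wl wa wb vp kap Hu HN al nu kN nN a s t B C) {w : ℕ}
    (h1 : wa ≤ w) (h2 : w ≤ wb) : Det F.p (slam F w) (fun ω => (a w ω, (s ω, t ω))) := by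
  intro ω ω' hω hω' e
  have hlw := h.lw
  have hwJ := h.wJ
  have e1 := h.slm w h1 h2 ω ω' hω hω' e
  have e2 : slam F wl ω = slam F wl ω' := by
    rw [slam_coarse F (w := wl) (w' := w) (by omega) (by omega) ω,
      slam_coarse F (w := wl) (w' := w) (by omega) (by omega) ω', e]
  exact Prod.ext e1 (h.slp ω ω' hω hω' e2)

/-- The frames of the theorem on rectangles. -/
theorem UFi.rc0 (h : UFi F A σ wl wa wb vp kap Hu HN al nu kN nN a s t B C) (hA : 0 < Pe F.p A)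
    {D : ℕ} (hD : vp wb ≤ D) :
    Rc F (Pool.Agent.H49.Ent.cond F.p A True) σ wa wb vp D a s t (fun ω => al (Fam.pt F ω)) := by
  have hpos : ∀ ω, 0 < Pool.Agent.H49.Ent.cond F.p A True ω → A ω ∧ 0 < F.p ω := by
    intro ω hω
    have := (cond_pos_iff F.isLaw.nonneg A True ω).1 hω
    exact ⟨by simpa using this.2, this.1⟩
  refine ⟨isLaw_cond F.isLaw hA, h.bij.1, h.wJ, h.mono, fun w h1 h2 => ?_, fun w h1 h2 ω hω => ?_,
    fun w h1 h2 ω _ => h.int w h1 h2 ω, fun w h1 h2 ω ω' hω hω' e => ?_⟩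
  · exact (h.mono w wb h1 h2 le_rfl).trans hD
  · exact h.near w h1 h2 ω (hpos ω hω).1
  · exact h.det0 h1 h2 ω ω' (hpos ω hω).2 (hpos ω' hω').2 e

end

/-- **(UEP)** in a class, `v = 0`. -/
theorem uep0_of (hZ : UhZStmt) : UePStmt {0} := by
  intro ε ρ α hε hρ hα
  obtain ⟨x₁, η, ϖ, δ, ε₁, γ, d₀, hx₁, hx₁1, hη, hϖ, hδ, hε₁, hγ, hγ1, huz⟩ :=
    uz_thm ε (α / 2) ρ hε (by positivity) hρ
  refine ⟨1, γ, 1, le_rfl, hγ, hγ1, one_pos, ?_⟩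
  intro v hv cw hcw
  have hv0 : v = 0 := hv
  subst hv0
  obtain ⟨κ₀, hκ₀, h1⟩ := hZ x₁ η ϖ δ ε₁ γ α d₀ hx₁ hx₁1 hη hϖ hδ hε₁ hγ hα cw hcw
  refine ⟨κ₀, hκ₀, fun κ hκ hκκ => ?_⟩
  obtain ⟨e₂, e₃, he₂, he₃, h2⟩ := h1 κ hκ hκκ
  refine ⟨e₂, e₃, he₂, he₃, fun M hM S a₁ R i₀ rt act w₀ v₀ q₀ a₀ hC => ?_⟩
  obtain ⟨L₀, hL₀, h3⟩ := h2 M hM S a₁ R i₀ rt act w₀ v₀ q₀ a₀ hC
  refine ⟨L₀, hL₀, fun L B C hL hLL => ?_⟩
  refine Clp.mono (J₂ := 0) (h3 L B C hL hLL) ?_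
  intro J _ F A hcl σ wl wa wb vp kap Hu HN al nu kN nN a s t hU hσ qa qb d D hN hf
  rw [one_mul] at hf ⊢
  obtain ⟨hA, hd, hwJ, hdw, hvp, hD1, hUz⟩ :=
    hcl σ wl wa wb vp kap Hu HN al nu kN nN a s t hU hσ qa qb d D hN hf
  have hab : wa ≤ wb := by
    have g1 := hN.ww
    have g2 : 0 ≤ cw * L * J := by positivity
    have g3 : (wa : ℝ) ≤ wb := by linarith
    exact_mod_cast g3
  have hvD : vp wb ≤ D := by omega
  have hnd := hN.nd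
  rw [one_mul] at hnd
  exact huz J F _ σ wa wb vp D a s t (fun ω => al (Fam.pt F ω)) kap d qa qb (hU.rc0 hA hvD)
    (fun ω ω' _ _ e => congrArg al e) hd hab hN.qq hwJ hdw hnd hvp hD1 hN.D2 hUz

end Pool.S6B
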