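import Pool.Agent.H10.S6U.Uz4
import Pool.Agent.H46.S6B.Zs

/-!
# The U-step at `v = 0` on a rectangle: one family

The theorem of helper10 (`ue_out0`), with the exact points as the second samples.
-/

set_option autoImplicit false

namespace Pool.S6B

open Finset Real
open Pool.Agent.H49.Ent Pool.Agent.H32.Dense Pool.STK Pool.KA Pool.KA.Win Pool.KA.TRC
  Pool.KSAT Pool.K2S Pool.K2S.Rows Pool.K2S.FF Pool.PB Pool.S6K.Wfe Pool.UST Pool.S6U Pool.S6C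

/-- The exact point sees the digits of its slope and the time. -/
theorem pt_dg {J : ℕ} {F : Fam 3 J} {p : F.Ω → ℝ} {al : F.Ω → ℝ} (D : ℕ)
    (h : Det p (Fam.pt F) al) : Det p (Fam.pt F) (fun ω => (Uni.dg D al ω, F.T ω)) := by
  intro ω ω' hω hω' e
  have e1 := h ω ω' hω hω' e
  have e2 : F.W ω = F.W ω' := (Prod.ext_iff.mp e).2
  have e3 : F.T ω = F.T ω' := (Prod.ext_iff.mp e2).1
  refine Prod.ext ?_ e3
  show ⌊(2 : ℝ) ^ D * al ω⌋ = ⌊(2 : ℝ) ^ D * al ω'⌋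
  rw [e1]

/-- **One family**: outside a small set of contexts the pair is full. -/
theorem uz_thm : UzStmt := by
  intro ε ca ρ hε hca hρ
  obtain ⟨x₁, η, θ, δ, ε₁, γ, d₀, hx₁, hη, hθ, hδ, hε₁, hγ, hγ1, _, hue⟩ :=
    ue_out0 ε ca 4 ρ hε hca le_rfl hρ
  refine ⟨min x₁ 1, η, θ, δ, ε₁, γ, d₀, lt_min hx₁ one_pos, min_le_right _ _, hη, hθ, hδ, hε₁, hγ,
    hγ1, ?_⟩
  intro J F p σ wa wb vp D a s t al κ X qa qb hR hal hX hwab hqab hwJ hXw hXq hvp hD1 hD2 hU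
  have hX0 : (0 : ℝ) ≤ X := Nat.cast_nonneg _
  have hs : Ush0 wa wb vp D X qa qb J γ := by
    refine ⟨hwab, hwJ, hXw, ?_, hXq, hD2⟩
    have h1 : γ * (X : ℝ) ≤ 1 * X := mul_le_mul_of_nonneg_right hγ1 hX0
    linarith
  have hU' : Uh0 F (Fam.pt F) p σ wa wb vp D a s t al κ X qa qb x₁ η θ δ ε₁ ca 4 := by
    refine ⟨pt_dg D hal, hU.tm, fun w h1 h2 => ?_, hU.act, hU.str⟩
    refine le_trans (Uni.Pr_le_of (dbl_law hR.law _).nonneg fun x _ hx => ?_) (hU.h6 w h1 h2)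
    have hx' : |sl (vp w) D (a w) al x.1 - sl (vp w) D (a w) al x.2| <
      (2 : ℝ) ^ (-(x₁ * X)) := hx
    show |sl (vp w) D (a w) al x.1 - sl (vp w) D (a w) al x.2| <
      (2 : ℝ) ^ (-(min x₁ 1 * X))
    refine hx'.trans_le ?_
    refine Real.rpow_le_rpow_of_exponent_le (by norm_num) ?_
    have h3 : min x₁ 1 * (X : ℝ) ≤ x₁ * X := mul_le_mul_of_nonneg_right (min_le_left _ _) hX0
    linarith
  obtain ⟨B, hB, hmain⟩ := hue F (Fam.pt F) p σ wa wb vp D a s t al κ X qa qb hR hX hs hU'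
  exact ⟨B, hB, fun w q h1 h2 h3 h4 h5 N hN => (hmain w q h1 h2 h3 h4 h5 N hN).1⟩

end Pool.S6B
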